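import Pool.Agent.H563R2.Main

/-!
# The exponent of matrix multiplication and explicit lower bounds for every `n`
-/

set_option autoImplicit false

open MvPolynomial Filter

namespace Pool.Agent.Y601.MMX

open H563R2.MM

universe u v w

/-- The exponent of matrix multiplication over `K`: the infimum of the real numbers `τ` with
`M(n) = O(n ^ τ)`. -/
noncomputable def exponent (K : Type u) [Field K] : ℝ :=
  sInf {τ : ℝ | (fun n : ℕ => (M K n : ℝ)) =O[atTop] fun n : ℕ => (n : ℝ) ^ τ}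

/-- The step `t` of the program `g` is an addition or a subtraction (of two allowed operands). -/
def IsSum {K : Type u} [Field K] {n m : ℕ} (g : Fin m → RatFun K n) (t : Fin m) : Prop :=
  ∃ x y : RatFun K n, IsOperand g t x ∧ IsOperand g t y ∧ (g t = x + y ∨ g t = x - y)

/-- The rank is at least `n²`. -/
theorem card_sq_le {F : Type u} [Field F] {ι : Type v} [DecidableEq ι] [Fintype ι]
    {τ : Type w} [Fintype τ] (h : RankLe F ι τ) : Fintype.card ι ^ 2 ≤ Fintype.card τ := by
  obtain ⟨u, v, w, h⟩ := h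
  let φ : (ι × ι → F) →ₗ[F] (τ → F) :=
    { toFun := fun c t => ∑ p : ι × ι, c p * u t p.1 p.2
      map_add' := by
        intro c d
        funext t
        simp only [Pi.add_apply, add_mul, Finset.sum_add_distrib]
      map_smul' := by
        intro a c
        funext t
        simp only [Pi.smul_apply, smul_eq_mul, RingHom.id_apply, Finset.mul_sum, mul_assoc] }
  have hφ : Function.Injective φ := by
    rw [← LinearMap.ker_eq_bot, LinearMap.ker_eq_bot']
    intro c hc
    funext p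
    obtain ⟨a, b⟩ := p
    have h1 : ∑ p : ι × ι, c p * ∑ t, u t p.1 p.2 * v t b b * w t b a = 0 := by
      have h2 : ∑ p : ι × ι, c p * ∑ t, u t p.1 p.2 * v t b b * w t b a =
          ∑ t, (∑ p : ι × ι, c p * u t p.1 p.2) * (v t b b * w t b a) := by
        simp only [Finset.mul_sum, Finset.sum_mul]
        rw [Finset.sum_comm]
        refine Finset.sum_congr rfl fun t _ => Finset.sum_congr rfl fun p _ => ?_
        ring
      rw [h2]
      refine Finset.sum_eq_zero fun t _ => ?_
      have h3 : ∑ p : ι × ι, c p * u t p.1 p.2 = 0 := congrFun hc t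
      rw [h3, zero_mul]
    simp only [h] at h1
    rw [Finset.sum_eq_single ((a, b) : ι × ι)] at h1
    · simpa using h1
    · rintro ⟨x, y⟩ - hne
      rw [if_neg, mul_zero]
      rintro ⟨h4, -, h5⟩
      exact hne (Prod.ext h5.symm h4)
    · intro h4
      exact absurd (Finset.mem_univ _) h4
  have h6 := LinearMap.finrank_le_finrank_of_injective hφ
  rw [Module.finrank_fintype_fun_eq_card, Module.finrank_fintype_fun_eq_card,
    Fintype.card_prod] at h6
  rwa [sq]

section
variable {K : Type u} [Field K]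

/-- A decomposition over an extension field with `r < n^ω` terms gives `M(N) < N^ω` for all large
`N`. -/
theorem eventually_of_rank_ext {E : Type v} [Field E] [Algebra K E] {n r : ℕ} (hn2 : 2 ≤ n)
    (hrank : RankLe E (Fin n) (Fin r)) {ω : ℝ} (hω : 2 < ω) (hrω : (r : ℝ) < (n : ℝ) ^ ω) :
    ∀ᶠ N : ℕ in atTop, (M K N : ℝ) < (N : ℝ) ^ ω := by
  have hn1 : (1 : ℝ) < n := by exact_mod_cast hn2
  have hn0 : (0 : ℝ) < n := by linarith
  obtain ⟨L, _, _, hfin, hL⟩ := hrank.exists_finite_ext (K := K)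
  set d := Module.finrank K L with hd
  -- a large Kronecker power
  have hpos : (0 : ℝ) < (n : ℝ) ^ ω := Real.rpow_pos_of_pos hn0 _
  have hq0 : 0 ≤ (r : ℝ) / (n : ℝ) ^ ω := by positivity
  have hq1 : (r : ℝ) / (n : ℝ) ^ ω < 1 := (div_lt_one hpos).2 hrω
  have hlim : Tendsto (fun k : ℕ => ((r : ℝ) / (n : ℝ) ^ ω) ^ k * (d : ℝ) ^ 3) atTop (nhds 0) := by
    have := (tendsto_pow_atTop_nhds_zero_of_lt_one hq0 hq1).mul_const ((d : ℝ) ^ 3)
    simpa using this
  obtain ⟨k, hk1, hk2⟩ := ((hlim.eventually (gt_mem_nhds one_pos)).and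
    (eventually_ge_atTop 1)).exists
  have hK := (hL.pow k).descend (K := K)
  have e1 : Fin (n ^ k) ≃ (Fin k → Fin n) := finFunctionFinEquiv.symm
  have e2 : Fin (r ^ k * d ^ 3) ≃ ((Fin k → Fin r) × (Fin d × Fin d × Fin d)) :=
    (Fintype.equivFinOfCardEq (by
      simp only [Fintype.card_prod, Fintype.card_fun, Fintype.card_fin]
      ring)).symm
  have hK' := hK.congr e1 e2
  refine eventually_of_rankLe (n := n ^ k) (r := r ^ k * d ^ 3) ?_ hω hK' ?_
  · calc 2 ≤ n := hn2
      _ = n ^ 1 := (pow_one n).symm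
      _ ≤ n ^ k := Nat.pow_le_pow_right (by omega) hk2
  · push_cast
    have h5 : ((n : ℝ) ^ k) ^ ω = ((n : ℝ) ^ ω) ^ k := by
      rw [← Real.rpow_natCast, ← Real.rpow_natCast, ← Real.rpow_mul hn0.le,
        ← Real.rpow_mul hn0.le, mul_comm]
    rw [h5]
    rw [div_pow, div_mul_eq_mul_div, div_lt_one (by positivity)] at hk1
    exact hk1

theorem isBigO_of_eventually_lt {θ : ℝ} (h : ∀ᶠ N : ℕ in atTop, (M K N : ℝ) < (N : ℝ) ^ θ) :
    (fun n : ℕ => (M K n : ℝ)) =O[atTop] fun n : ℕ => (n : ℝ) ^ θ := by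
  refine Asymptotics.IsBigO.of_bound 1 ?_
  filter_upwards [h] with N hN
  rw [Real.norm_of_nonneg (Nat.cast_nonneg _), Real.norm_of_nonneg
    (Real.rpow_nonneg (Nat.cast_nonneg _) _), one_mul]
  exact hN.le

theorem two_le_of_isBigO {τ : ℝ}
    (h : (fun n : ℕ => (M K n : ℝ)) =O[atTop] fun n : ℕ => (n : ℝ) ^ τ) : 2 ≤ τ := by
  by_contra hτ
  push Not at hτ
  obtain ⟨C, hC⟩ := h.bound
  have htend : Tendsto (fun N : ℕ => ((N : ℝ)) ^ (2 - τ)) atTop atTop :=
    (tendsto_rpow_atTop (by linarith)).comp tendsto_natCast_atTop_atTop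
  obtain ⟨n, hn, hn2, hn3⟩ := (hC.and ((htend.eventually_gt_atTop C).and
    (eventually_ge_atTop 1))).exists
  have hn0 : (0 : ℝ) < n := by exact_mod_cast hn3
  rw [Real.norm_of_nonneg (Nat.cast_nonneg _), Real.norm_of_nonneg
    (Real.rpow_nonneg (Nat.cast_nonneg _) _)] at hn
  have h1 : ((n : ℝ)) ^ 2 ≤ M K n := by exact_mod_cast sq_le_M (K := K) n
  have h2 : ((n : ℝ)) ^ (2 - τ) * (n : ℝ) ^ τ = (n : ℝ) ^ 2 := by
    rw [← Real.rpow_add hn0, ← Real.rpow_two]
    congr 1
    ring
  have h3 : 0 < (n : ℝ) ^ τ := Real.rpow_pos_of_pos hn0 _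
  have h4 := mul_lt_mul_of_pos_right hn2 h3
  linarith

variable (K) in
theorem exponent_nonempty :
    {τ : ℝ | (fun n : ℕ => (M K n : ℝ)) =O[atTop] fun n : ℕ => (n : ℝ) ^ τ}.Nonempty := by
  refine ⟨4, isBigO_of_eventually_lt ?_⟩
  have h1 : RankLe K (Fin 2) (Fin 8) := (RankLe.trivial K (Fin 2)).congr (Equiv.refl _)
    (Fintype.equivFinOfCardEq (by simp)).symm
  refine eventually_of_rankLe (n := 2) (r := 8) le_rfl (by norm_num) h1 ?_
  norm_num

variable (K) in
theorem two_le_exponent : 2 ≤ exponent K :=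
  le_csInf (exponent_nonempty K) fun _ h => two_le_of_isBigO h

theorem exponent_le {θ : ℝ} (h : ∀ᶠ N : ℕ in atTop, (M K N : ℝ) < (N : ℝ) ^ θ) :
    exponent K ≤ θ :=
  csInf_le ⟨2, fun _ h => two_le_of_isBigO h⟩ (isBigO_of_eventually_lt h)

theorem eventually_of_exponent_lt {τ : ℝ} (h : exponent K < τ) :
    ∃ δ : ℝ, 0 < δ ∧ ∀ᶠ N : ℕ in atTop, (M K N : ℝ) < (N : ℝ) ^ (τ - δ) := by
  obtain ⟨σ, hσ, hστ⟩ := exists_lt_of_csInf_lt (exponent_nonempty K) h
  refine ⟨(τ - σ) / 2, by linarith, ?_⟩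
  obtain ⟨C, hC⟩ := Asymptotics.IsBigO.bound hσ
  have htend : Tendsto (fun N : ℕ => ((N : ℝ)) ^ ((τ - σ) / 2)) atTop atTop :=
    (tendsto_rpow_atTop (by linarith)).comp tendsto_natCast_atTop_atTop
  filter_upwards [hC, htend.eventually_gt_atTop C, eventually_ge_atTop 1] with n hn hn2 hn3
  have hn0 : (0 : ℝ) < n := by exact_mod_cast hn3
  rw [Real.norm_of_nonneg (Nat.cast_nonneg _), Real.norm_of_nonneg
    (Real.rpow_nonneg (Nat.cast_nonneg _) _)] at hn
  have h3 : 0 < (n : ℝ) ^ σ := Real.rpow_pos_of_pos hn0 _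
  calc (M K n : ℝ) ≤ C * (n : ℝ) ^ σ := hn
    _ < (n : ℝ) ^ ((τ - σ) / 2) * (n : ℝ) ^ σ := mul_lt_mul_of_pos_right hn2 h3
    _ = (n : ℝ) ^ (τ - (τ - σ) / 2) := by rw [← Real.rpow_add hn0]; congr 1; ring

/-- The rank of the `n × n` matrix multiplication tensor over every extension field is at least
`n ^ ω` for every `n`. -/
theorem rank_ge {E : Type v} [Field E] [Algebra K E] {n r : ℕ}
    (h : RankLe E (Fin n) (Fin r)) : (n : ℝ) ^ exponent K ≤ r := by
  have hsq : n ^ 2 ≤ r := by
    have := card_sq_le h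
    simpa using this
  have hsq' : ((n : ℝ)) ^ 2 ≤ r := by exact_mod_cast hsq
  have h2 := two_le_exponent K
  rcases Nat.lt_or_ge n 2 with hn | hn
  · have : n = 0 ∨ n = 1 := by omega
    rcases this with rfl | rfl
    · rw [Nat.cast_zero, Real.zero_rpow (by linarith)]
      exact Nat.cast_nonneg _
    · rw [Nat.cast_one, Real.one_rpow]
      simpa using hsq'
  · by_contra hcon
    push Not at hcon
    have hn1 : (1 : ℝ) < n := by exact_mod_cast hn
    have hn0 : (0 : ℝ) < n := by linarith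
    obtain ⟨ρ, hρ1, hρ2⟩ := exists_between hcon
    have hρ0 : 0 < ρ := lt_of_le_of_lt (Nat.cast_nonneg r) hρ1
    set θ : ℝ := Real.log ρ / Real.log n with hθ
    have hlogn : 0 < Real.log n := Real.log_pos hn1
    have hθρ : (n : ℝ) ^ θ = ρ := by
      rw [Real.rpow_def_of_pos hn0, hθ, mul_div_cancel₀ _ hlogn.ne', Real.exp_log hρ0]
    have hθω : θ < exponent K := by
      rw [← hθρ] at hρ2
      exact (Real.rpow_lt_rpow_left_iff hn1).1 hρ2
    have hθ2 : 2 < θ := by
      have h3 : (n : ℝ) ^ (2 : ℝ) < (n : ℝ) ^ θ := by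
        rw [hθρ, Real.rpow_two]
        linarith
      exact (Real.rpow_lt_rpow_left_iff hn1).1 h3
    have h4 := eventually_of_rank_ext (K := K) hn h hθ2 (by rw [hθρ]; exact hρ1)
    have h5 := exponent_le h4
    linarith

/-- Both kinds of steps. -/
theorem steps {n m : ℕ} (g : Fin m → RatFun K n) (hg : IsProgram g) (hc : ComputesProduct g) :
    (n : ℝ) ^ exponent K - (n : ℝ) ^ 2 ≤ Nat.card {t : Fin m // IsSum g t} ∧
    (n : ℝ) ^ exponent K / 2 ≤ Nat.card {t : Fin m // ¬ IsSum g t} := by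
  classical
  have hop : ∀ t x, IsOperand g t x → (∃ s < t, x = g s) ∨
      (DD (dA K n) (dB K n) x = 0 ∧ HH (dA K n) (dB K n) x = 0) := by
    intro t x hx
    rcases hx with h | ⟨i, j, rfl⟩ | ⟨i, j, rfl⟩ | ⟨c, rfl⟩
    · exact Or.inl h
    · right
      constructor
      · funext a b
        simp [DD, dB_entryA, (isDer_dA K n _).zero]
      · funext a b
        simp [HH, dB_entryA, (isDer_dA K n _).zero]
    · right
      constructor
      · funext a b
        simp [DD, dB_entryB, dA_entryB, dA_const]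
      · funext a b
        simp [HH, dB_entryB, dA_const]
    · right
      constructor
      · funext a b
        simp [DD, dB_const, (isDer_dA K n _).zero]
      · funext a b
        simp [HH, dB_const, (isDer_dA K n _).zero]
  have hout : ∀ i k : Fin n, ∃ t, ∀ i' j j' k', HH (dA K n) (dB K n) (g t) (i', j) (j', k') =
      if j = j' ∧ k' = k ∧ i = i' then 1 else 0 := by
    intro i k
    obtain ⟨t, ht⟩ := hc i k
    refine ⟨t, fun i' j j' k' => ?_⟩
    rw [ht, HH_out]
  have h1 := rankLe_additive (E := RatFun K n) (g := g) (Op := IsOperand g) (ι := Fin n)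
    (dA := dA K n) (dB := dB K n) (isDer_dA K n) (isDer_dB K n) hg hop hout
  have h2 := rankLe_multiplicative (E := RatFun K n) (g := g) (Op := IsOperand g) (ι := Fin n)
    (dA := dA K n) (dB := dB K n) (isDer_dA K n) (isDer_dB K n) hg hop hout
  have h3 := h1.congr (Equiv.refl _) (Fintype.equivFin _).symm
  have h4 := h2.congr (Equiv.refl _) (Fintype.equivFin _).symm
  have h5 := rank_ge (K := K) h3
  have h6 := rank_ge (K := K) h4
  have e1 : Fintype.card {t : Fin m // AddStep g (IsOperand g) t} =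
      Nat.card {t : Fin m // IsSum g t} := by
    rw [Nat.card_eq_fintype_card]
    exact Fintype.card_congr (Equiv.refl _)
  have e2 : Fintype.card {t : Fin m // ¬ AddStep g (IsOperand g) t} =
      Nat.card {t : Fin m // ¬ IsSum g t} := by
    rw [Nat.card_eq_fintype_card]
    exact Fintype.card_congr (Equiv.refl _)
  rw [Fintype.card_sum, e1, Fintype.card_prod, Fintype.card_fin] at h5
  rw [Fintype.card_sum, e2] at h6
  push_cast at h5 h6
  constructor
  · linarith
  · linarith

/-- An explicit lower bound for every `n`. -/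
theorem M_ge (n : ℕ) : 3 / 2 * (n : ℝ) ^ exponent K - (n : ℝ) ^ 2 ≤ M K n := by
  classical
  obtain ⟨g, hg, hc⟩ := M_spec (K := K) n
  obtain ⟨h1, h2⟩ := steps g hg hc
  have h3 : Nat.card {t : Fin (M K n) // IsSum g t} + Nat.card {t : Fin (M K n) // ¬ IsSum g t} =
      M K n := by
    rw [Nat.card_eq_fintype_card, Nat.card_eq_fintype_card]
    have := Fintype.card_subtype_compl (fun t : Fin (M K n) => IsSum g t)
    have h3 := Fintype.card_subtype_le (fun t : Fin (M K n) => IsSum g t)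
    rw [Fintype.card_fin] at this h3
    omega
  have h4 : (Nat.card {t : Fin (M K n) // IsSum g t} : ℝ) +
      Nat.card {t : Fin (M K n) // ¬ IsSum g t} = M K n := by exact_mod_cast h3
  linarith

/-- One value suffices. -/
theorem exponent_lt_of_one {τ : ℝ} {n : ℕ} (hn : 2 ≤ n)
    (h : (M K n : ℝ) < 3 / 2 * (n : ℝ) ^ τ - (n : ℝ) ^ 2) : exponent K < τ := by
  have h1 := M_ge (K := K) n
  have hn1 : (1 : ℝ) < n := by exact_mod_cast hn
  have h2 : (n : ℝ) ^ exponent K < (n : ℝ) ^ τ := by linarith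
  exact (Real.rpow_lt_rpow_left_iff hn1).1 h2

theorem exponent_lt_of_infinite {τ : ℝ} (h : {n : ℕ | (M K n : ℝ) < (n : ℝ) ^ τ}.Infinite) :
    exponent K < τ := by
  have h := Nat.frequently_atTop_iff_infinite.2 h
  have hω : 2 < τ := by
    obtain ⟨n, hn, hn2⟩ := (h.and_eventually (eventually_ge_atTop 2)).exists
    have hn1 : (1 : ℝ) < n := by exact_mod_cast hn2
    have h1 : ((n : ℝ)) ^ (2 : ℝ) < (n : ℝ) ^ τ := by
      rw [Real.rpow_two]
      refine lt_of_le_of_lt ?_ hn
      exact_mod_cast sq_le_M (K := K) n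
    exact (Real.rpow_lt_rpow_left_iff hn1).1 h1
  have htend : Tendsto (fun N : ℕ => ((N : ℝ)) ^ (τ - 2)) atTop atTop :=
    (tendsto_rpow_atTop (by linarith)).comp tendsto_natCast_atTop_atTop
  obtain ⟨n, hn, hn2, hn3⟩ := (h.and_eventually ((eventually_ge_atTop 2).and
    (htend.eventually_ge_atTop 2))).exists
  have hn1 : (1 : ℝ) < n := by exact_mod_cast hn2
  have hn0 : (0 : ℝ) < n := by linarith
  have hsq : 2 * (n : ℝ) ^ 2 ≤ (n : ℝ) ^ τ := by
    have : (n : ℝ) ^ τ = (n : ℝ) ^ (τ - 2) * (n : ℝ) ^ 2 := by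
      rw [← Real.rpow_two, ← Real.rpow_add hn0]
      congr 1
      ring
    rw [this]
    exact mul_le_mul_of_nonneg_right hn3 (by positivity)
  refine exponent_lt_of_one hn2 ?_
  linarith

end

end Pool.Agent.Y601.MMX
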